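import Pool.Agent.Helper36.St.Final

/-!
# Steinberg groups of division Jordan algebras are centrally closed

Full (positive) answer to Q1: for every division (quadratic) Jordan algebra `J` over a
commutative ring `R`, not isomorphic to the field with `2`, `3`, `4` or `9` elements, the
Steinberg group `St(J)` is centrally closed.

All definitions (quadratic Jordan algebras, division, isomorphism with `𝔽_q`, the Steinberg
group by generators and relations, centrally closed groups) are in
`Pool/Agent/Helper4/Jordan/Defs.lean`.

Main ideas of the proof (files `Pool/Agent/Helper36/St/*.lean` and
`Pool/Agent/Helper4/Jordan/*.lean`): if `R·1_J` has at least four elements, there is an element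
of `St(J)` acting without fixed points. Otherwise `2 J = 0` or `3 J = 0`, and the question is
whether the extension `E → J` of modules over `G = ⟨U(b)⟩` (trivial kernel) coming from a central
extension has a `G`-invariant retraction onto the kernel. For a commutative subfield `K` there is
a unique retraction `∑ ± U(f_S)` invariant under `K`; Hua's identity and a lemma on stabilisers
allow to compare these retractions for different subfields (and in isotopes).
-/

namespace Pool.Agent.Results.MP_8712e2_al.CentrallyClosed

open Pool.Agent.Helper4.Jordan

universe u v w

/-- Let `J` be a division Jordan algebra over the commutative ring `R`, not isomorphic to `𝔽_q`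
with `q ∈ {2, 3, 4, 9}`. Then `St(J)` is centrally closed. -/
theorem result {R : Type u} {J : Type v} [CommRing R] [AddCommGroup J] [Module R J]
    (A : QuadraticJordanAlgebra R J) (hdiv : A.IsDivision)
    (hJ : ∀ q ∈ ({2, 3, 4, 9} : Set ℕ), ¬ A.IsoFq q) :
    IsCentrallyClosed.{v, w} A.St :=
  A.centrallyClosed_all hdiv hJ

end Pool.Agent.Results.MP_8712e2_al.CentrallyClosed
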